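import Pool.Agent.U738.BN.Fam
import Pool.Agent.U738.CX.FamDefs
import Pool.Agent.U483.GU.HDefs
import Pool.Agent.U483.KM.Defs

/-!
# Poles of the `L`-functions of the even cohomology, for arbitrary schemes over `ℚ`: definitions

For a separated scheme `X` of finite type over `ℚ` and an integer `m` let `gr^W_{2m} H^i_c(X)` be the graded
piece of weight `2 m` of the `ℓ`-adic cohomology with compact support of `X` over the algebraic closure. For a
smooth projective `X` it is `H^{2m}(X)` for `i = 2 m` and `0` otherwise. These are realizations of motives for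
absolute Hodge cycles (Deligne, Jannsen), which form a semisimple category.
-/

set_option autoImplicit false

open CategoryTheory AlgebraicGeometry MvPolynomial Filter Topology Pool.Agent.Y116.UV
  Pool.Agent.Q282.UK Pool.Agent.U738.BN Pool.Agent.U738.CX Pool.Agent.U483.GU Pool.Agent.U483.KM

namespace Pool.Agent.U692.TP

/-- `n` is the order of `f` at the point `a`, from the right: `(s - a)^(-n) f(s)` has a finite nonzero
limit for real `s → a`, `s > a`. -/
def HasOrder (f : ℝ → ℂ) (a : ℝ) (n : ℤ) : Prop :=
  ∃ c : ℂ, c ≠ 0 ∧ Tendsto (fun s : ℝ => ((s - a : ℝ) : ℂ) ^ (-n) * f s) (𝓝[>] a) (𝓝 c)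

/-- Euler factors and ranks for the separated schemes of finite type over `ℚ`. -/
structure EulerData where
  /-- `factor m X p T` is the product over `i` of `det (1 - Frob_p T | (gr^W_{2m} H^i_c(X))^{I_p})^(∓ 1)` (the
  exponent is `- 1` for even `i` and `1` for odd `i`) -/
  factor : ℤ → Sch ℚ → Nat.Primes → ℂ → ℂ
  /-- `rank m X` is the additive invariant of schemes whose value for a smooth projective `X` is the rank of
  `B^m(X)`, the group of the cycles of codimension `m` modulo homological equivalence -/
  rank : ℤ → Sch ℚ → ℤ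

/-- the Euler factor at `s` -/
noncomputable def EulerData.at (D : EulerData) (m : ℤ) (X : Sch ℚ) (s : ℝ) (p : Nat.Primes) : ℂ :=
  D.factor m X p ((p : ℂ) ^ (-(s : ℂ)))

/-- The `L`-function of weight `2 m`; for smooth projective `X` the `L`-function of `H^{2m}(X)`. -/
noncomputable def EulerData.L (D : EulerData) (m : ℤ) (X : Sch ℚ) (s : ℝ) : ℂ :=
  ∏' p : Nat.Primes, D.at m X s p

/-- Tate's formula for `X`: for all `m` the order of the `L`-function of weight `2 m` at `s = m + 1` is the
negative of the rank. For a smooth projective variety `X` this is the question Q1 for `X`. -/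
def EulerData.Tate (D : EulerData) (X : Sch ℚ) : Prop :=
  ∀ m : ℤ, HasOrder (D.L m X) (m + 1) (-D.rank m X)

/-- The known properties of the Euler factors and of the ranks which are used. Isomorphic schemes have equal
factors and ranks; additivity for a closed subscheme `Z` of `X` with the open complement `U`; the
product with the torus `𝔾_m`; convergence of the Euler products for `s > m + 1` near `m + 1`, with values `≠ 0`; nothing in
negative weights. (Equalities of Euler factors are used for real `s > m + 1` near `m + 1` only; there the finitely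
many Euler factors at the primes of bad reduction have no poles.) -/
structure IsKnown (D : EulerData) : Prop where
  iso : ∀ (m : ℤ) {X Y : Sch ℚ}, FT True X → Nonempty (X ≅ Y) →
    D.factor m X = D.factor m Y ∧ D.rank m X = D.rank m Y
  /-- the exact sequence of the cohomology with compact support; it splits on the graded pieces -/
  factor_cut : ∀ (m : ℤ) {Z X U : Sch ℚ} (i : Z ⟶ X) (j : U ⟶ X), FT True X → IsTriple i j →
    ∀ᶠ s : ℝ in 𝓝[>] ((m : ℝ) + 1), ∀ p, D.at m X s p = D.at m Z s p * D.at m U s p
  /-- the ranks factor over the Grothendieck group of varieties (Gillet and Soulé) -/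
  rank_cut : ∀ (m : ℤ) {Z X U : Sch ℚ} (i : Z ⟶ X) (j : U ⟶ X), FT True X → IsTriple i j →
    D.rank m X = D.rank m Z + D.rank m U
  /-- `[X × 𝔾_m] = [X] (𝕃 - 1)` -/
  factor_torus : ∀ (m : ℤ) (A : Type) [CommRing A] [Algebra ℚ A] [Algebra.FiniteType ℚ A],
    ∀ᶠ s : ℝ in 𝓝[>] ((m : ℝ) + 1), ∀ p, D.at m (aff ℚ (LaurentPolynomial A)) s p *
      D.at m (aff ℚ A) s p = D.at (m - 1) (aff ℚ A) (s - 1) p
  rank_torus : ∀ (m : ℤ) (A : Type) [CommRing A] [Algebra ℚ A] [Algebra.FiniteType ℚ A],
    D.rank m (aff ℚ (LaurentPolynomial A)) + D.rank m (aff ℚ A) = D.rank (m - 1) (aff ℚ A)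
  converges : ∀ (m : ℤ) (X : Sch ℚ), FT True X →
    ∀ᶠ s : ℝ in 𝓝[>] ((m : ℝ) + 1), Multipliable (D.at m X s) ∧ D.L m X s ≠ 0
  negative : ∀ (m : ℤ) (X : Sch ℚ), FT True X → m < 0 →
    (∀ p T, D.factor m X p T = 1) ∧ D.rank m X = 0

/-- `X` is a smooth projective variety over `ℚ` of dimension at most `N`. -/
structure IsProjVar (N : ℕ∞) (X : Sch ℚ) : Prop where
  smoothProjective : SmoothProjective X
  integral : IsIntegral X.left
  dim : topologicalKrullDim X.left ≤ (N : WithBot ℕ∞)

/-- Resolution of singularities (Hironaka), for the varieties of dimension at most `N ≤ ∞`: a class of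
schemes which contains the smooth projective varieties of dimension at most `N` and is closed under
isomorphisms and closed-open decompositions (and descends from `X × 𝔾_m` to `X`), contains all
separated schemes of finite type of dimension at most `N`. -/
def Resolution : Prop :=
  ∀ (N : ℕ∞) (P : Sch ℚ → Prop), Clo True P → (∀ X : Sch ℚ, IsProjVar N X → P X) →
    ∀ X : Sch ℚ, FT True X → topologicalKrullDim X.left ≤ (N : WithBot ℕ∞) → P X

/-- The least class of separated schemes of finite type over `ℚ` which contains
* the schemes of dimension at most `N`;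
* the affine schemes with an action of a diagonalizable group `D(Γ)` (a grading by the abelian group `Γ`) of
  complexity at most `N`;
* the affine schemes given by any set of equations with at most two terms and coefficients in any
  `ℚ`-algebra `S` of finite type of dimension at most `N`;
* the affine schemes given by finitely many equations over `ℚ` with `t_1, t_2, …` terms,
  `∑ max(t_i - 2, 0) ≤ N`;
and which is closed under isomorphisms, contains all three of a scheme `X`, a closed subscheme `Z` and the
open complement `U` as soon as it contains two of them, and contains the affine scheme `X` if and only if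
it contains `X × 𝔾_m`. -/
inductive Pieces (N : ℕ) : Sch ℚ → Prop
  | dim (X : Sch ℚ) : FT True X → topologicalKrullDim X.left ≤ N → Pieces N X
  | graded (A : Type) [CommRing A] [Algebra ℚ A] [Algebra.FiniteType ℚ A] (Γ : Type)
      [AddCommGroup Γ] [DecidableEq Γ] (𝒜 : Γ → Submodule ℚ A) [GradedAlgebra 𝒜] :
      ComplexityLE 𝒜 N → Pieces N (aff ℚ A)
  | terms (S : Type) [CommRing S] [Algebra ℚ S] [Algebra.FiniteType ℚ S] (n : ℕ)
      (G : Set (MvPolynomial (Fin n) S)) : ringKrullDim S ≤ N → (∀ g ∈ G, g.support.card ≤ 2) →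
      Pieces N (aff ℚ (MvPolynomial (Fin n) S ⧸ Ideal.span G))
  | sparse (n : ℕ) (G : Finset (MvPolynomial (Fin n) ℚ)) : ∑ g ∈ G, (g.support.card - 2) ≤ N →
      Pieces N (aff ℚ (MvPolynomial (Fin n) ℚ ⧸ Ideal.span (G : Set (MvPolynomial (Fin n) ℚ))))
  | iso {X Y : Sch ℚ} : FT True X → Nonempty (X ≅ Y) → Pieces N X → Pieces N Y
  | total {Z X U : Sch ℚ} (i : Z ⟶ X) (j : U ⟶ X) : FT True X → IsTriple i j →
      Pieces N Z → Pieces N U → Pieces N X
  | opened {Z X U : Sch ℚ} (i : Z ⟶ X) (j : U ⟶ X) : FT True X → IsTriple i j →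
      Pieces N Z → Pieces N X → Pieces N U
  | closed {Z X U : Sch ℚ} (i : Z ⟶ X) (j : U ⟶ X) : FT True X → IsTriple i j →
      Pieces N X → Pieces N U → Pieces N Z
  | times (A : Type) [CommRing A] [Algebra ℚ A] [Algebra.FiniteType ℚ A] :
      Pieces N (aff ℚ A) → Pieces N (aff ℚ (LaurentPolynomial A))
  | torus (A : Type) [CommRing A] [Algebra ℚ A] [Algebra.FiniteType ℚ A] :
      Pieces N (aff ℚ (LaurentPolynomial A)) → Pieces N (aff ℚ A)

/-- The subgroup of the Grothendieck group `K_0(Var_ℚ)` of varieties generated by the classes of the schemes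
in `Q`. -/
def generated (Q : Sch ℚ → Prop) : AddSubgroup (K0 ℚ) :=
  AddSubgroup.closure {c | ∃ Y : Var ℚ, Q Y.1 ∧ c = cls Y}

end Pool.Agent.U692.TP
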