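import Pool.Agent.U692.TP.Main
import Pool.Agent.U483.KM.Defs

/-!
# Poles of `L`-functions and the Grothendieck group of varieties
-/

set_option autoImplicit false

open CategoryTheory AlgebraicGeometry MvPolynomial Filter Topology Pool.Agent.Y116.UV
  Pool.Agent.Q282.UK Pool.Agent.U738.BN Pool.Agent.U483.GU Pool.Agent.Z125.UN Pool.Agent.U583.MW
  Pool.Agent.U483.KM

namespace Pool.Agent.U692.TP

/-- The functions with a finite nonzero limit at `a` from the right. -/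
def limSub (a : ℝ) : Subgroup (ℝ → ℂˣ) where
  carrier := {f | ∃ c : ℂ, c ≠ 0 ∧ Tendsto (fun s => (f s : ℂ)) (𝓝[>] a) (𝓝 c)}
  mul_mem' := by
    rintro f g ⟨c, hc, h⟩ ⟨d, hd, h'⟩
    refine ⟨c * d, mul_ne_zero hc hd, (h.mul h').congr fun s => ?_⟩
    simp
  one_mem' := ⟨1, one_ne_zero, by simp⟩
  inv_mem' := by
    rintro f ⟨c, hc, h⟩
    refine ⟨c⁻¹, inv_ne_zero hc, (h.inv₀ hc).congr fun s => ?_⟩
    simp

lemma mem_limSub {a : ℝ} {f : ℝ → ℂˣ} : f ∈ limSub a ↔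
    ∃ c : ℂ, c ≠ 0 ∧ Tendsto (fun s => (f s : ℂ)) (𝓝[>] a) (𝓝 c) := Iff.rfl

open Classical in
/-- A complex number as a unit (`1` in place of `0`). -/
noncomputable def un (z : ℂ) : ℂˣ := if h : z = 0 then 1 else Units.mk0 z h

lemma un_val {z : ℂ} (h : z ≠ 0) : (un z : ℂ) = z := by
  rw [un, dif_neg h]
  rfl

/-- The class of the `L`-function times the power of `s - (m + 1)`. -/
noncomputable def fn (D : EulerData) (m : ℤ) (X : Sch ℚ) (s : ℝ) : ℂˣ :=
  un (((s - (m + 1) : ℝ) : ℂ)) ^ D.rank m X * un (D.L m X s)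

variable {D : EulerData}

lemma tate_iff (hD : IsKnown D) (X : Sch ℚ) (hX : FT True X) (m : ℤ) :
    HasOrder (D.L m X) (m + 1) (-D.rank m X) ↔ fn D m X ∈ limSub (m + 1) := by
  rw [mem_limSub, HasOrder]
  have h : (fun s : ℝ => ((s - ((m : ℝ) + 1) : ℝ) : ℂ) ^ (-(-D.rank m X)) * D.L m X s) =ᶠ[𝓝[>] ((m : ℝ) + 1)]
      fun s => (fn D m X s : ℂ) := by
    filter_upwards [self_mem_nhdsWithin, hD.converges m X hX] with s hs h2
    rw [fn, Units.val_mul, Units.val_zpow_eq_zpow_val, un_val (base_ne hs), un_val h2.2, neg_neg]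
  constructor
  · rintro ⟨c, hc, ht⟩
    exact ⟨c, hc, ht.congr' h⟩
  · rintro ⟨c, hc, ht⟩
    exact ⟨c, hc, ht.congr' h.symm⟩

lemma mk_eq_of_eventually {a : ℝ} {f g : ℝ → ℂˣ} (h : f =ᶠ[𝓝[>] a] g) :
    (QuotientGroup.mk f : (ℝ → ℂˣ) ⧸ limSub a) = QuotientGroup.mk g := by
  rw [QuotientGroup.eq]
  refine ⟨1, one_ne_zero, tendsto_const_nhds.congr' ?_⟩
  filter_upwards [h] with s hs
  simp [hs]

/-- The class of `X` in the group of the functions modulo the functions with a finite nonzero limit. -/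
noncomputable def ev (D : EulerData) (m : ℤ) (X : Sch ℚ) :
    Additive ((ℝ → ℂˣ) ⧸ limSub ((m : ℝ) + 1)) :=
  Additive.ofMul (QuotientGroup.mk (fn D m X))

lemma ev_iso (hD : IsKnown D) (m : ℤ) {X Y : Sch ℚ} (hX : FT True X) (e : Nonempty (X ≅ Y)) :
    ev D m X = ev D m Y := by
  obtain ⟨h2, h3⟩ := hD.iso m hX e
  have h4 : D.L m X = D.L m Y := by
    funext s
    unfold EulerData.L EulerData.at
    rw [h2]
  unfold ev
  have h5 : fn D m X = fn D m Y := by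
    funext s
    rw [fn, fn, h3, h4]
  rw [h5]

lemma ev_cut (hD : IsKnown D) (m : ℤ) {Z X U : Sch ℚ} (i : Z ⟶ X) (j : U ⟶ X) (hX : FT True X)
    (ht : IsTriple i j) : ev D m X = ev D m Z + ev D m U := by
  unfold ev
  rw [← ofMul_mul, ← QuotientGroup.mk_mul]
  congr 1
  refine mk_eq_of_eventually ?_
  filter_upwards [L_cut hD m i j hX ht, hD.converges m Z (ft_closed i hX ht.closed),
    hD.converges m U (ft_opened j hX ht.opened)] with s h1 h2 h3
  ext1
  have h4 : un (D.L m X s) = un (D.L m Z s) * un (D.L m U s) := by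
    ext1
    rw [Units.val_mul, un_val h2.2, un_val h3.2, h1, un_val (mul_ne_zero h2.2 h3.2)]
  rw [Pi.mul_apply, fn, fn, fn, h4, hD.rank_cut m i j hX ht, zpow_add]
  congr 1
  exact mul_mul_mul_comm _ _ _ _

/-- Additive invariants are homomorphisms on `K_0(Var_ℚ)`. -/
noncomputable def liftK {G : Type} [AddCommGroup G] (e : Sch ℚ → G)
    (h1 : ∀ X Y : Var ℚ, Nonempty (X.1 ≅ Y.1) → e X.1 = e Y.1)
    (h2 : ∀ (Z X U : Var ℚ) (i : Z.1 ⟶ X.1) (j : U.1 ⟶ X.1), IsTriple i j →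
      e X.1 = e Z.1 + e U.1) : K0 ℚ →+ G :=
  QuotientAddGroup.lift _ (FreeAbelianGroup.lift fun X : Var ℚ => e X.1) (by
    rw [AddSubgroup.closure_le]
    rintro r (⟨X, Y, h, rfl⟩ | ⟨Z, X, U, i, j, ht, rfl⟩)
    · rw [SetLike.mem_coe, AddMonoidHom.mem_ker, map_sub, FreeAbelianGroup.lift_apply_of,
        FreeAbelianGroup.lift_apply_of, h1 X Y h, sub_self]
    · rw [SetLike.mem_coe, AddMonoidHom.mem_ker, map_sub, map_add, FreeAbelianGroup.lift_apply_of,
        FreeAbelianGroup.lift_apply_of, FreeAbelianGroup.lift_apply_of, h2 Z X U i j ht,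
        sub_self])

lemma liftK_cls {G : Type} [AddCommGroup G] (e : Sch ℚ → G)
    (h1 : ∀ X Y : Var ℚ, Nonempty (X.1 ≅ Y.1) → e X.1 = e Y.1)
    (h2 : ∀ (Z X U : Var ℚ) (i : Z.1 ⟶ X.1) (j : U.1 ⟶ X.1), IsTriple i j →
      e X.1 = e Z.1 + e U.1) (X : Var ℚ) : liftK e h1 h2 (cls X) = e X.1 := by
  change FreeAbelianGroup.lift _ (FreeAbelianGroup.of X) = _
  rw [FreeAbelianGroup.lift_apply_of]

/-- The homomorphism on `K_0(Var_ℚ)`. -/
noncomputable def phi (hD : IsKnown D) (m : ℤ) :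
    K0 ℚ →+ Additive ((ℝ → ℂˣ) ⧸ limSub ((m : ℝ) + 1)) :=
  liftK (ev D m) (fun X _ e => ev_iso hD m X.2 e) fun _ X _ i j ht => ev_cut hD m i j X.2 ht

lemma phi_cls (hD : IsKnown D) (m : ℤ) (X : Var ℚ) : phi hD m (cls X) = ev D m X.1 :=
  liftK_cls _ _ _ X

lemma tate_iff_phi (hD : IsKnown D) (X : Var ℚ) :
    D.Tate X.1 ↔ ∀ m, phi hD m (cls X) = 0 := by
  refine forall_congr' fun m => ?_
  rw [tate_iff hD X.1 X.2 m, phi_cls]
  unfold ev
  rw [ofMul_eq_zero, QuotientGroup.eq_one_iff]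

/-- **The class in `K_0(Var_ℚ)`.** -/
theorem tate_of_mem (hD : IsKnown D) (X : Var ℚ) (hX : cls X ∈ generated D.Tate) :
    D.Tate X.1 := by
  rw [tate_iff_phi hD]
  intro m
  have h : generated D.Tate ≤ (phi hD m).ker := by
    unfold generated
    rw [AddSubgroup.closure_le]
    rintro c ⟨Y, hY, rfl⟩
    exact (tate_iff_phi hD Y).1 hY m
  exact h hX

/-- The criterion in terms of the class. -/
theorem tate_iff_mem (hD : IsKnown D) (X : Var ℚ) : D.Tate X.1 ↔ cls X ∈ generated D.Tate :=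
  ⟨fun h => AddSubgroup.subset_closure ⟨X, h, rfl⟩, tate_of_mem hD X⟩

/-- The equivalence for dimension at most `N`. -/
theorem dim_iff_pieces (hD : IsKnown D) (hR : Resolution) (N : ℕ) :
    (∀ X : Sch ℚ, IsProjVar N X → D.Tate X) ↔
      ∀ X : Var ℚ, cls X ∈ generated (fun Y => D.Tate Y ∨ Pieces N Y) → D.Tate X.1 := by
  constructor
  · intro h X hX
    refine tate_of_mem hD X (AddSubgroup.closure_mono ?_ hX)
    rintro c ⟨Y, hY | hY, rfl⟩
    · exact ⟨Y, hY, rfl⟩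
    · exact ⟨Y, tate_pieces hD hR h hY, rfl⟩
  · intro h X hX
    exact h ⟨X, hX.smoothProjective.ft⟩ (AddSubgroup.subset_closure
      ⟨⟨X, hX.smoothProjective.ft⟩, Or.inr (Pieces.dim X hX.smoothProjective.ft hX.dim), rfl⟩)

end Pool.Agent.U692.TP
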