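import Pool.Agent.U692.TP.Defs
import Pool.Agent.U483.CX.Strat
import Pool.Agent.U738.CX.Fam
import Pool.Agent.U583.MW.Geo
import Pool.Agent.Z125.UN.Dim2

/-!
# Poles of the `L`-functions of the even cohomology, for arbitrary schemes over `ℚ`
-/

set_option autoImplicit false

open CategoryTheory AlgebraicGeometry MvPolynomial Filter Topology Pool.Agent.Y116.UV
  Pool.Agent.Q282.UK Pool.Agent.U738.BN Pool.Agent.U738.CX Pool.Agent.U483.GU Pool.Agent.Z125.UN
  Pool.Agent.U583.MW

namespace Pool.Agent.U692.TP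

/-! ### Orders -/

section order

variable {f g h : ℝ → ℂ} {a : ℝ} {n k : ℤ}

lemma base_ne {s : ℝ} (hs : s ∈ Set.Ioi a) : ((s - a : ℝ) : ℂ) ≠ 0 := by
  have h : s - a ≠ 0 := sub_ne_zero.2 (ne_of_gt hs)
  exact_mod_cast h

lemma HasOrder.congr (hf : HasOrder f a n) (h : f =ᶠ[𝓝[>] a] g) : HasOrder g a n := by
  obtain ⟨c, hc, ht⟩ := hf
  refine ⟨c, hc, ht.congr' ?_⟩
  filter_upwards [h] with s hs
  rw [hs]

lemma HasOrder.one (a : ℝ) : HasOrder (fun _ => 1) a 0 := by
  refine ⟨1, one_ne_zero, ?_⟩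
  simp

lemma HasOrder.mul (hf : HasOrder f a n) (hg : HasOrder g a k) :
    HasOrder (fun s => f s * g s) a (n + k) := by
  obtain ⟨c, hc, ht⟩ := hf
  obtain ⟨d, hd, hu⟩ := hg
  refine ⟨c * d, mul_ne_zero hc hd, (ht.mul hu).congr' ?_⟩
  filter_upwards [self_mem_nhdsWithin] with s hs
  rw [neg_add, zpow_add₀ (base_ne hs)]
  ring

lemma HasOrder.cancel (hf : HasOrder f a n) (hg : HasOrder g a k)
    (h0 : ∀ᶠ s in 𝓝[>] a, f s = g s * h s) : HasOrder h a (n - k) := by
  obtain ⟨c, hc, ht⟩ := hf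
  obtain ⟨d, hd, hu⟩ := hg
  refine ⟨c / d, div_ne_zero hc hd, (ht.div hu hd).congr' ?_⟩
  filter_upwards [self_mem_nhdsWithin, h0, hu.eventually_ne hd] with s hs h1 h2
  have hb := base_ne hs
  have hg0 : g s ≠ 0 := right_ne_zero_of_mul h2
  have h3 : ((s - a : ℝ) : ℂ) ^ (-(n - k)) =
      ((s - a : ℝ) : ℂ) ^ (-n) * ((s - a : ℝ) : ℂ) ^ k := by
    rw [← zpow_add₀ hb]
    congr 1
    ring
  have h4 : ((s - a : ℝ) : ℂ) ^ (-k) ≠ 0 := zpow_ne_zero _ hb
  have h5 : ((s - a : ℝ) : ℂ) ^ k * ((s - a : ℝ) : ℂ) ^ (-k) = 1 := by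
    rw [← zpow_add₀ hb, add_neg_cancel, zpow_zero]
  simp only [Pi.div_apply]
  rw [h3, h1, div_eq_iff h2]
  linear_combination (-(((s - a : ℝ) : ℂ) ^ (-n) * g s * h s)) * h5

lemma HasOrder.shift (hf : HasOrder f a n) : HasOrder (fun s => f (s - 1)) (a + 1) n := by
  obtain ⟨c, hc, ht⟩ := hf
  have h1 : Tendsto (fun s : ℝ => s - 1) (𝓝[>] (a + 1)) (𝓝[>] a) := by
    refine tendsto_nhdsWithin_iff.2 ⟨?_, ?_⟩
    · have h2 : Tendsto (fun s : ℝ => s - 1) (𝓝 (a + 1)) (𝓝 (a + 1 - 1)) :=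
        (continuous_id.sub continuous_const).tendsto _
      rw [add_sub_cancel_right] at h2
      exact h2.mono_left nhdsWithin_le_nhds
    · filter_upwards [self_mem_nhdsWithin] with s hs
      have h3 : a + 1 < s := hs
      show a < s - 1
      linarith
  refine ⟨c, hc, (ht.comp h1).congr fun s => ?_⟩
  simp only [Function.comp_apply]
  rw [show s - 1 - a = s - (a + 1) by ring]

lemma HasOrder.cast (hf : HasOrder f a n) {b : ℝ} (hb : a = b) (hn : n = k) : HasOrder f b k := by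
  rw [← hb, ← hn]
  exact hf

end order

/-! ### The `L`-functions -/

variable {D : EulerData}

lemma L_cut (hD : IsKnown D) (m : ℤ) {Z X U : Sch ℚ} (i : Z ⟶ X) (j : U ⟶ X) (hX : FT True X)
    (ht : IsTriple i j) : ∀ᶠ s : ℝ in 𝓝[>] ((m : ℝ) + 1), D.L m X s = D.L m Z s * D.L m U s := by
  filter_upwards [hD.factor_cut m i j hX ht, hD.converges m Z (ft_closed i hX ht.closed),
    hD.converges m U (ft_opened j hX ht.opened)] with s h1 h2 h3
  unfold EulerData.L
  rw [← h2.1.tprod_mul h3.1]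
  exact tprod_congr h1

lemma L_torus (hD : IsKnown D) (m : ℤ) (A : Type) [CommRing A] [Algebra ℚ A]
    [Algebra.FiniteType ℚ A] : ∀ᶠ s : ℝ in 𝓝[>] ((m : ℝ) + 1),
      D.L (m - 1) (aff ℚ A) (s - 1) = D.L m (aff ℚ (LaurentPolynomial A)) s * D.L m (aff ℚ A) s := by
  have hft : Algebra.FiniteType ℚ (LaurentPolynomial A) := ft_laurent A
  filter_upwards [hD.factor_torus m A, hD.converges m _ (ft_aff (R := ℚ) (A := LaurentPolynomial A) True),
    hD.converges m _ (ft_aff (R := ℚ) (A := A) True)] with s h1 h2 h3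
  unfold EulerData.L
  rw [← h2.1.tprod_mul h3.1]
  exact (tprod_congr h1).symm

lemma tate_iso (hD : IsKnown D) {X Y : Sch ℚ} (hX : FT True X) (e : Nonempty (X ≅ Y))
    (h : D.Tate X) : D.Tate Y := by
  intro m
  have h1 := h m
  obtain ⟨h2, h3⟩ := hD.iso m hX e
  have h4 : D.L m X = D.L m Y := by
    funext s
    unfold EulerData.L EulerData.at
    rw [h2]
  rw [← h4, ← h3]
  exact h1

lemma tate_total (hD : IsKnown D) {Z X U : Sch ℚ} (i : Z ⟶ X) (j : U ⟶ X) (hX : FT True X)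
    (ht : IsTriple i j) (hZ : D.Tate Z) (hU : D.Tate U) : D.Tate X := by
  intro m
  refine (((hZ m).mul (hU m)).congr ?_).cast rfl (by rw [hD.rank_cut m i j hX ht]; ring)
  filter_upwards [L_cut hD m i j hX ht] with s hs
  exact hs.symm

lemma tate_opened (hD : IsKnown D) {Z X U : Sch ℚ} (i : Z ⟶ X) (j : U ⟶ X) (hX : FT True X)
    (ht : IsTriple i j) (hZ : D.Tate Z) (hX' : D.Tate X) : D.Tate U := by
  intro m
  exact ((hX' m).cancel (hZ m) (L_cut hD m i j hX ht)).cast rfl
    (by rw [hD.rank_cut m i j hX ht]; ring)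

lemma tate_closed (hD : IsKnown D) {Z X U : Sch ℚ} (i : Z ⟶ X) (j : U ⟶ X) (hX : FT True X)
    (ht : IsTriple i j) (hX' : D.Tate X) (hU : D.Tate U) : D.Tate Z := by
  intro m
  refine ((hX' m).cancel (hU m) ?_).cast rfl (by rw [hD.rank_cut m i j hX ht]; ring)
  filter_upwards [L_cut hD m i j hX ht] with s hs
  rw [hs, mul_comm]

lemma base_neg (hD : IsKnown D) {X : Sch ℚ} (hX : FT True X) {m : ℤ} (hm : m < 0) :
    HasOrder (D.L m X) (m + 1) (-D.rank m X) := by
  obtain ⟨h1, h2⟩ := hD.negative m X hX hm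
  have h3 : D.L m X = fun _ => 1 := by
    funext s
    unfold EulerData.L EulerData.at
    simp only [h1]
    exact tprod_one
  rw [h3, h2, neg_zero]
  exact HasOrder.one _

lemma induct {Q : ℤ → Prop} (h0 : ∀ m < 0, Q m) (h1 : ∀ m, Q (m - 1) → Q m) (m : ℤ) : Q m := by
  have key : ∀ n : ℕ, Q ((n : ℤ) - 1) := by
    intro n
    induction n with
    | zero => exact h0 _ (by norm_num)
    | succ n ih =>
      refine h1 _ ?_
      have : (((n + 1 : ℕ) : ℤ) - 1 - 1) = (n : ℤ) - 1 := by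
        push_cast
        ring
      rw [this]
      exact ih
  rcases lt_or_ge m 0 with h | h
  · exact h0 m h
  · have h2 := key (m + 1).toNat
    rw [Int.toNat_of_nonneg (by omega), add_sub_cancel_right] at h2
    exact h2

lemma shifted {X : Sch ℚ} {m : ℤ} (h : HasOrder (D.L (m - 1) X) (((m - 1 : ℤ) : ℝ) + 1)
    (-D.rank (m - 1) X)) : HasOrder (fun s => D.L (m - 1) X (s - 1)) (m + 1) (-D.rank (m - 1) X) :=
  h.shift.cast (by push_cast; ring) rfl

lemma tate_torus (hD : IsKnown D) (A : Type) [CommRing A] [Algebra ℚ A] [Algebra.FiniteType ℚ A]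
    (h : D.Tate (aff ℚ (LaurentPolynomial A))) : D.Tate (aff ℚ A) := by
  refine induct (fun m hm => base_neg hD (ft_aff True) hm) fun m hm => ?_
  exact ((shifted hm).cancel (h m) (L_torus hD m A)).cast rfl (by
    rw [← hD.rank_torus m A]; ring)

lemma tate_times (hD : IsKnown D) (A : Type) [CommRing A] [Algebra ℚ A] [Algebra.FiniteType ℚ A]
    (h : D.Tate (aff ℚ A)) : D.Tate (aff ℚ (LaurentPolynomial A)) := by
  intro m
  refine ((shifted (h (m - 1))).cancel (h m) ?_).cast rfl (by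
    rw [← hD.rank_torus m A]; ring)
  filter_upwards [L_torus hD m A] with s hs
  rw [hs, mul_comm]

theorem clo_tate (hD : IsKnown D) : Clo True D.Tate where
  iso hX e h := tate_iso hD hX e h
  total i j hX ht hZ hU := tate_total hD i j hX ht hZ hU
  opened i j hX ht hZ hX' := tate_opened hD i j hX ht hZ hX'
  torus A _ _ _ h := tate_torus hD A h

section small

variable (hD : IsKnown D) (hR : Resolution) {N : ℕ}
  (hN : ∀ X : Sch ℚ, IsProjVar N X → D.Tate X)

include hD hR hN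

lemma tate_dim (A : Type) [CommRing A] [Algebra ℚ A] [Algebra.FiniteType ℚ A]
    (hA : ringKrullDim A ≤ N) : D.Tate (aff ℚ A) := by
  refine hR N D.Tate (clo_tate hD) hN _ (ft_aff True) ?_
  rw [topDim_aff]
  exact hA

lemma posD_tate : PosD True D.Tate N where
  iso hX e h := tate_iso hD hX e h
  total i j hX ht hZ hU := tate_total hD i j hX ht hZ hU
  times A _ _ _ h := tate_times hD A h
  dim A _ _ _ hA := tate_dim hD hR hN A hA

/-- **Tate's formula for the schemes with small pieces.** -/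
theorem tate_pieces {X : Sch ℚ} (hX : Pieces N X) : D.Tate X := by
  induction hX with
  | dim X hX hd => exact hR N D.Tate (clo_tate hD) hN X hX hd
  | graded A Γ 𝒜 hA => exact for_complexity (posD_tate hD hR hN) A Γ 𝒜 hA
  | terms S n G hS hG => exact two_terms (posD_tate hD hR hN) S hS n G hG
  | sparse n G hG =>
    have hPos : Pos True D.Tate := by
      refine ⟨fun hX e h => tate_iso hD hX e h, fun i j hX ht hZ hU => tate_total hD i j hX ht hZ hU,
        fun A _ _ _ h => tate_times hD A h, fun A _ _ _ => ?_⟩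
      have h1 : IsArtinianRing A := IsArtinianRing.of_finite ℚ A
      have h2 : ringKrullDim A ≤ (0 : ℕ) := Ring.krullDimLE_iff.1 inferInstance
      exact tate_dim hD hR hN A (h2.trans (by exact_mod_cast Nat.zero_le N))
    exact Pool.Agent.U483.CX.small_finset hPos N
      (fun A _ _ _ hA => tate_dim hD hR hN A hA) G hG
  | iso hX e _ h => exact tate_iso hD hX e h
  | total i j hX ht _ _ hZ hU => exact tate_total hD i j hX ht hZ hU
  | opened i j hX ht _ _ hZ hX' => exact tate_opened hD i j hX ht hZ hX'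
  | closed i j hX ht _ _ hX' hU => exact tate_closed hD i j hX ht hX' hU
  | times A _ h => exact tate_times hD A h
  | torus A _ h => exact tate_torus hD A h

/-- **The number of terms.** -/
theorem tate_dichotomy (t : ℕ) : List.TFAE [
    ForTerms N t D.Tate,
    ForSystems ∅ t D.Tate,
    t ≤ 2 ∨ ∀ X : Sch ℚ, FT True X → D.Tate X,
    t ≤ 2 ∨ ∀ X : Sch ℚ, IsProjVar ⊤ X → D.Tate X] := by
  have hT : Subfield.closure (∅ : Set ℚ) = ⊤ := by
    rw [eq_top_iff]
    intro x _
    have h1 : ((x.num : ℚ) / (x.den : ℚ)) ∈ Subfield.closure (∅ : Set ℚ) :=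
      div_mem (intCast_mem _ _) (natCast_mem _ _)
    rwa [Rat.num_div_den] at h1
  have h0 := dichotomy_field hT (clo_tate hD) (posD_tate hD hR hN)
    (by exact_mod_cast Nat.zero_le N) t
  tfae_have 1 ↔ 2 := h0.out 0 1
  tfae_have 2 ↔ 3 := h0.out 1 2
  tfae_have 3 → 4 := by
    rintro (h | h)
    · exact Or.inl h
    · exact Or.inr fun X hX => h X hX.smoothProjective.ft
  tfae_have 4 → 3 := by
    rintro (h | h)
    · exact Or.inl h
    · exact Or.inr fun X hX => hR ⊤ D.Tate (clo_tate hD) h X hX le_top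
  tfae_finish

end small

end Pool.Agent.U692.TP
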