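import Pool.Agent.U692.TP.MrDefs
import Pool.Agent.U692.TP.Kz

/-!
# Meromorphic continuation of the `L`-functions of arbitrary schemes over `ℚ`
-/

set_option autoImplicit false

open CategoryTheory AlgebraicGeometry MvPolynomial Filter Topology Pool.Agent.Y116.UV
  Pool.Agent.Q282.UK Pool.Agent.U738.BN Pool.Agent.U738.CX Pool.Agent.U483.GU Pool.Agent.Z125.UN
  Pool.Agent.U583.MW Pool.Agent.U483.KM

namespace Pool.Agent.U692.TP

section continues

variable {f g h : ℂ → ℂ}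

lemma Continues.congr (hf : Continues f) (h : ∃ σ : ℝ, ∀ s : ℂ, σ < s.re → f s = g s) :
    Continues g := by
  obtain ⟨F, hF, σ, hσ⟩ := hf
  obtain ⟨τ, hτ⟩ := h
  exact ⟨F, hF, max σ τ, fun s hs => (hσ s (lt_of_le_of_lt (le_max_left _ _) hs)).trans
    (hτ s (lt_of_le_of_lt (le_max_right _ _) hs))⟩

lemma Continues.one : Continues fun _ => 1 :=
  ⟨fun _ => 1, fun _ _ => MeromorphicAt.const 1 _, 0, fun _ _ => rfl⟩

lemma Continues.mul (hf : Continues f) (hg : Continues g) : Continues fun s => f s * g s := by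
  obtain ⟨F, hF, σ, hσ⟩ := hf
  obtain ⟨G, hG, τ, hτ⟩ := hg
  exact ⟨F * G, hF.mul hG, max σ τ, fun s hs => by
    rw [Pi.mul_apply, hσ s (lt_of_le_of_lt (le_max_left _ _) hs),
      hτ s (lt_of_le_of_lt (le_max_right _ _) hs)]⟩

lemma Continues.inv (hf : Continues f) : Continues fun s => (f s)⁻¹ := by
  obtain ⟨F, hF, σ, hσ⟩ := hf
  exact ⟨F⁻¹, hF.inv, σ, fun s hs => by rw [Pi.inv_apply, hσ s hs]⟩

lemma Continues.cancel (hf : Continues f) (hg : Continues g)
    (h0 : ∃ σ : ℝ, ∀ s : ℂ, σ < s.re → f s = g s * h s ∧ g s ≠ 0) : Continues h := by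
  refine (hf.mul hg.inv).congr ?_
  obtain ⟨σ, hσ⟩ := h0
  refine ⟨σ, fun s hs => ?_⟩
  obtain ⟨h1, h2⟩ := hσ s hs
  rw [h1, mul_comm (g s) (h s), mul_assoc, mul_inv_cancel₀ h2, mul_one]

lemma Continues.shift (hf : Continues f) : Continues fun s => f (s - 1) := by
  obtain ⟨F, hF, σ, hσ⟩ := hf
  refine ⟨fun s => F (s - 1), fun s _ => ?_, σ + 1, fun s hs => hσ _ ?_⟩
  · have h1 : MeromorphicAt F (s - 1) := hF (s - 1) trivial
    have h2 : AnalyticAt ℂ (fun z : ℂ => z - 1) s := by fun_prop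
    exact MeromorphicAt.comp_analyticAt (f := F) (g := fun z : ℂ => z - 1) h1 h2
  · rw [Complex.sub_re, Complex.one_re]
    linarith

end continues

variable {D : FactorData}

lemma mr_cut (hD : IsKnownFactors D) (w : ℤ) {Z X U : Sch ℚ} (i : Z ⟶ X) (j : U ⟶ X)
    (hX : FT True X) (ht : IsTriple i j) : ∃ σ : ℝ, ∀ s : ℂ, σ < s.re →
      D.L w X s = D.L w Z s * D.L w U s ∧ D.L w Z s ≠ 0 ∧ D.L w U s ≠ 0 := by
  obtain ⟨a, ha⟩ := hD.cut w i j hX ht
  obtain ⟨b, hb⟩ := hD.converges w Z (ft_closed i hX ht.closed)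
  obtain ⟨c, hc⟩ := hD.converges w U (ft_opened j hX ht.opened)
  refine ⟨max a (max b c), fun s hs => ?_⟩
  have h1 := ha s (lt_of_le_of_lt (le_max_left _ _) hs)
  have h2 := hb s (lt_of_le_of_lt ((le_max_left _ _).trans (le_max_right _ _)) hs)
  have h3 := hc s (lt_of_le_of_lt ((le_max_right _ _).trans (le_max_right _ _)) hs)
  refine ⟨?_, h2.2, h3.2⟩
  unfold FactorData.L
  rw [← h2.1.tprod_mul h3.1]
  exact tprod_congr h1

lemma mr_torus (hD : IsKnownFactors D) (w : ℤ) (A : Type) [CommRing A] [Algebra ℚ A]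
    [Algebra.FiniteType ℚ A] : ∃ σ : ℝ, ∀ s : ℂ, σ < s.re →
      D.L (w - 2) (aff ℚ A) (s - 1) = D.L w (aff ℚ (LaurentPolynomial A)) s * D.L w (aff ℚ A) s ∧
        D.L w (aff ℚ (LaurentPolynomial A)) s ≠ 0 ∧ D.L w (aff ℚ A) s ≠ 0 := by
  have hft : Algebra.FiniteType ℚ (LaurentPolynomial A) := ft_laurent A
  obtain ⟨a, ha⟩ := hD.torus w A
  obtain ⟨b, hb⟩ := hD.converges w _ (ft_aff (R := ℚ) (A := LaurentPolynomial A) True)
  obtain ⟨c, hc⟩ := hD.converges w _ (ft_aff (R := ℚ) (A := A) True)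
  refine ⟨max a (max b c), fun s hs => ?_⟩
  have h1 := ha s (lt_of_le_of_lt (le_max_left _ _) hs)
  have h2 := hb s (lt_of_le_of_lt ((le_max_left _ _).trans (le_max_right _ _)) hs)
  have h3 := hc s (lt_of_le_of_lt ((le_max_right _ _).trans (le_max_right _ _)) hs)
  refine ⟨?_, h2.2, h3.2⟩
  unfold FactorData.L
  rw [← h2.1.tprod_mul h3.1]
  exact (tprod_congr h1).symm

lemma L_iso (hD : IsKnownFactors D) (w : ℤ) {X Y : Sch ℚ} (hX : FT True X)
    (e : Nonempty (X ≅ Y)) : D.L w X = D.L w Y := by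
  funext s
  unfold FactorData.L FactorData.at
  rw [hD.iso w hX e]

lemma mero_iso (hD : IsKnownFactors D) {X Y : Sch ℚ} (hX : FT True X) (e : Nonempty (X ≅ Y))
    (h : D.Mero X) : D.Mero Y := fun w => by
  rw [← L_iso hD w hX e]
  exact h w

lemma mero_total (hD : IsKnownFactors D) {Z X U : Sch ℚ} (i : Z ⟶ X) (j : U ⟶ X) (hX : FT True X)
    (ht : IsTriple i j) (hZ : D.Mero Z) (hU : D.Mero U) : D.Mero X := fun w => by
  obtain ⟨σ, hσ⟩ := mr_cut hD w i j hX ht
  exact ((hZ w).mul (hU w)).congr ⟨σ, fun s hs => (hσ s hs).1.symm⟩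

lemma mero_opened (hD : IsKnownFactors D) {Z X U : Sch ℚ} (i : Z ⟶ X) (j : U ⟶ X) (hX : FT True X)
    (ht : IsTriple i j) (hZ : D.Mero Z) (hX' : D.Mero X) : D.Mero U := fun w => by
  obtain ⟨σ, hσ⟩ := mr_cut hD w i j hX ht
  exact (hX' w).cancel (hZ w) ⟨σ, fun s hs => ⟨(hσ s hs).1, (hσ s hs).2.1⟩⟩

lemma mero_closed (hD : IsKnownFactors D) {Z X U : Sch ℚ} (i : Z ⟶ X) (j : U ⟶ X) (hX : FT True X)
    (ht : IsTriple i j) (hX' : D.Mero X) (hU : D.Mero U) : D.Mero Z := fun w => by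
  obtain ⟨σ, hσ⟩ := mr_cut hD w i j hX ht
  exact (hX' w).cancel (hU w) ⟨σ, fun s hs => ⟨by rw [(hσ s hs).1, mul_comm], (hσ s hs).2.2⟩⟩

lemma mero_neg (hD : IsKnownFactors D) {X : Sch ℚ} (hX : FT True X) {w : ℤ} (hw : w < 0) :
    Continues (D.L w X) := by
  have h3 : D.L w X = fun _ => 1 := by
    funext s
    unfold FactorData.L FactorData.at
    simp only [hD.negative w X hX hw]
    exact tprod_one
  rw [h3]
  exact Continues.one

lemma induct_two {Q : ℤ → Prop} (h0 : ∀ w < 0, Q w) (h1 : ∀ w, Q (w - 2) → Q w) (w : ℤ) : Q w := by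
  have key : ∀ n : ℕ, ∀ w : ℤ, w < n → Q w := by
    intro n
    induction n with
    | zero => exact fun w hw => h0 w (by exact_mod_cast hw)
    | succ n ih =>
      intro w hw
      refine h1 _ (ih _ ?_)
      push_cast at hw
      omega
  exact key (w.toNat + 1) w (by push_cast; omega)

lemma mero_torus (hD : IsKnownFactors D) (A : Type) [CommRing A] [Algebra ℚ A]
    [Algebra.FiniteType ℚ A] (h : D.Mero (aff ℚ (LaurentPolynomial A))) : D.Mero (aff ℚ A) := by
  refine induct_two (fun w hw => mero_neg hD (ft_aff True) hw) fun w hw => ?_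
  obtain ⟨σ, hσ⟩ := mr_torus hD w A
  exact hw.shift.cancel (h w) ⟨σ, fun s hs => ⟨(hσ s hs).1, (hσ s hs).2.1⟩⟩

lemma mero_times (hD : IsKnownFactors D) (A : Type) [CommRing A] [Algebra ℚ A]
    [Algebra.FiniteType ℚ A] (h : D.Mero (aff ℚ A)) : D.Mero (aff ℚ (LaurentPolynomial A)) := by
  intro w
  obtain ⟨σ, hσ⟩ := mr_torus hD w A
  exact (h (w - 2)).shift.cancel (h w)
    ⟨σ, fun s hs => ⟨by rw [(hσ s hs).1, mul_comm], (hσ s hs).2.2⟩⟩

theorem clo_mero (hD : IsKnownFactors D) : Clo True D.Mero where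
  iso hX e h := mero_iso hD hX e h
  total i j hX ht hZ hU := mero_total hD i j hX ht hZ hU
  opened i j hX ht hZ hX' := mero_opened hD i j hX ht hZ hX'
  torus A _ _ _ h := mero_torus hD A h

section small

/-- a closed class which contains the varieties of dimension at most `N` contains `Pieces N` -/
theorem of_pieces {P : Sch ℚ → Prop} (hP : Clo True P) (hR : Resolution) {N : ℕ}
    (hN : ∀ X : Sch ℚ, IsProjVar N X → P X)
    (times : ∀ (A : Type) [CommRing A] [Algebra ℚ A] [Algebra.FiniteType ℚ A],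
      P (aff ℚ A) → P (aff ℚ (LaurentPolynomial A)))
    (closed : ∀ {Z X U : Sch ℚ} (i : Z ⟶ X) (j : U ⟶ X), FT True X → IsTriple i j → P X → P U → P Z) :
    PosD True P N ∧ ∀ X : Sch ℚ, Pieces N X → P X := by
  have hdim : ∀ (A : Type) [CommRing A] [Algebra ℚ A] [Algebra.FiniteType ℚ A],
      ringKrullDim A ≤ N → P (aff ℚ A) := by
    intro A _ _ _ hA
    refine hR N P hP hN _ (ft_aff True) ?_
    rw [topDim_aff]
    exact hA
  have hPD : PosD True P N := ⟨hP.iso, hP.total, times, hdim⟩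
  refine ⟨hPD, fun X hX => ?_⟩
  induction hX with
  | dim X hX hd => exact hR N P hP hN X hX hd
  | graded A Γ 𝒜 hA => exact for_complexity hPD A Γ 𝒜 hA
  | terms S n G hS hG => exact two_terms hPD S hS n G hG
  | sparse n G hG =>
    have hPos : Pos True P := by
      refine ⟨hP.iso, hP.total, times, fun A _ _ _ => ?_⟩
      have h1 : IsArtinianRing A := IsArtinianRing.of_finite ℚ A
      have h2 : ringKrullDim A ≤ (0 : ℕ) := Ring.krullDimLE_iff.1 inferInstance
      exact hdim A (h2.trans (by exact_mod_cast Nat.zero_le N))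
    exact Pool.Agent.U483.CX.small_finset hPos N (fun A _ _ _ hA => hdim A hA) G hG
  | iso hX e _ h => exact hP.iso hX e h
  | total i j hX ht _ _ hZ hU => exact hP.total i j hX ht hZ hU
  | opened i j hX ht _ _ hZ hX' => exact hP.opened i j hX ht hZ hX'
  | closed i j hX ht _ _ hX' hU => exact closed i j hX ht hX' hU
  | times A _ h => exact times A h
  | torus A _ h => exact hP.torus A h

/-- the number of terms -/
theorem terms_tfae {P : Sch ℚ → Prop} (hP : Clo True P) (hR : Resolution) {N : ℕ}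
    (hPD : PosD True P N) (t : ℕ) : List.TFAE [
    ForTerms N t P,
    ForSystems ∅ t P,
    t ≤ 2 ∨ ∀ X : Sch ℚ, FT True X → P X,
    t ≤ 2 ∨ ∀ X : Sch ℚ, IsProjVar ⊤ X → P X] := by
  have hT : Subfield.closure (∅ : Set ℚ) = ⊤ := by
    rw [eq_top_iff]
    intro x _
    have h1 : ((x.num : ℚ) / (x.den : ℚ)) ∈ Subfield.closure (∅ : Set ℚ) :=
      div_mem (intCast_mem _ _) (natCast_mem _ _)
    rwa [Rat.num_div_den] at h1
  have h0 := dichotomy_field hT hP hPD (by exact_mod_cast Nat.zero_le N) t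
  tfae_have 1 ↔ 2 := h0.out 0 1
  tfae_have 2 ↔ 3 := h0.out 1 2
  tfae_have 3 → 4 := by
    rintro (h | h)
    · exact Or.inl h
    · exact Or.inr fun X hX => h X hX.smoothProjective.ft
  tfae_have 4 → 3 := by
    rintro (h | h)
    · exact Or.inl h
    · exact Or.inr fun X hX => hR ⊤ P hP h X hX le_top
  tfae_finish

end small

/-! ### The class in the Grothendieck group -/

/-- The functions which continue. -/
def contSub : Subgroup (ℂ → ℂˣ) where
  carrier := {f | Continues fun s => (f s : ℂ)}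
  mul_mem' := by
    intro f g h h'
    exact (Continues.mul h h').congr ⟨0, fun s _ => by simp⟩
  one_mem' := Continues.one.congr ⟨0, fun s _ => by simp⟩
  inv_mem' := by
    intro f h
    exact (Continues.inv h).congr ⟨0, fun s _ => by simp⟩

lemma mem_contSub {f : ℂ → ℂˣ} : f ∈ contSub ↔ Continues fun s => (f s : ℂ) := Iff.rfl

/-- The class of the `L`-function. -/
noncomputable def lv (D : FactorData) (w : ℤ) (X : Sch ℚ) : Additive ((ℂ → ℂˣ) ⧸ contSub) :=
  Additive.ofMul (QuotientGroup.mk fun s => un (D.L w X s))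

lemma lv_cut (hD : IsKnownFactors D) (w : ℤ) {Z X U : Sch ℚ} (i : Z ⟶ X) (j : U ⟶ X)
    (hX : FT True X) (ht : IsTriple i j) : lv D w X = lv D w Z + lv D w U := by
  unfold lv
  rw [← ofMul_mul, ← QuotientGroup.mk_mul]
  congr 1
  rw [QuotientGroup.eq, mem_contSub]
  obtain ⟨σ, hσ⟩ := mr_cut hD w i j hX ht
  refine Continues.one.congr ⟨σ, fun s hs => ?_⟩
  obtain ⟨h1, h2, h3⟩ := hσ s hs
  have h4 : un (D.L w X s) = un (D.L w Z s) * un (D.L w U s) := by
    ext1
    rw [Units.val_mul, un_val h2, un_val h3, h1, un_val (mul_ne_zero h2 h3)]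
  simp [h4]

/-- The homomorphism on `K_0(Var_ℚ)`. -/
noncomputable def psi (hD : IsKnownFactors D) (w : ℤ) : K0 ℚ →+ Additive ((ℂ → ℂˣ) ⧸ contSub) :=
  liftK (lv D w) (fun X _ e => by unfold lv; rw [L_iso hD w X.2 e])
    fun _ X _ i j ht => lv_cut hD w i j X.2 ht

lemma mero_iff_psi (hD : IsKnownFactors D) (X : Var ℚ) :
    D.Mero X.1 ↔ ∀ w, psi hD w (cls X) = 0 := by
  refine forall_congr' fun w => ?_
  rw [psi, liftK_cls]
  unfold lv
  rw [ofMul_eq_zero, QuotientGroup.eq_one_iff, mem_contSub]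
  obtain ⟨σ, hσ⟩ := hD.converges w X.1 X.2
  have h : ∀ s : ℂ, σ < s.re → D.L w X.1 s = (un (D.L w X.1 s) : ℂ) := fun s hs =>
    (un_val (hσ s hs).2).symm
  exact ⟨fun h1 => h1.congr ⟨σ, h⟩, fun h1 => h1.congr ⟨σ, fun s hs => (h s hs).symm⟩⟩

theorem mero_of_mem (hD : IsKnownFactors D) (X : Var ℚ) (hX : cls X ∈ generated D.Mero) :
    D.Mero X.1 := by
  rw [mero_iff_psi hD]
  intro w
  have h : generated D.Mero ≤ (psi hD w).ker := by
    unfold generated
    rw [AddSubgroup.closure_le]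
    rintro c ⟨Y, hY, rfl⟩
    exact (mero_iff_psi hD Y).1 hY w
  exact h hX

theorem mero_iff_mem (hD : IsKnownFactors D) (X : Var ℚ) : D.Mero X.1 ↔ cls X ∈ generated D.Mero :=
  ⟨fun h => AddSubgroup.subset_closure ⟨X, h, rfl⟩, mero_of_mem hD X⟩

theorem mero_pieces (hD : IsKnownFactors D) (hR : Resolution) {N : ℕ}
    (hN : ∀ X : Sch ℚ, IsProjVar N X → D.Mero X) :
    PosD True D.Mero N ∧ ∀ X : Sch ℚ, Pieces N X → D.Mero X :=
  of_pieces (clo_mero hD) hR hN (fun A _ _ _ h => mero_times hD A h)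
    fun i j hX ht hX' hU => mero_closed hD i j hX ht hX' hU

theorem mero_dim_iff (hD : IsKnownFactors D) (hR : Resolution) (N : ℕ) :
    (∀ X : Sch ℚ, IsProjVar N X → D.Mero X) ↔
      ∀ X : Var ℚ, cls X ∈ generated (fun Y => D.Mero Y ∨ Pieces N Y) → D.Mero X.1 := by
  constructor
  · intro h X hX
    refine mero_of_mem hD X (AddSubgroup.closure_mono ?_ hX)
    rintro c ⟨Y, hY | hY, rfl⟩
    · exact ⟨Y, hY, rfl⟩
    · exact ⟨Y, (mero_pieces hD hR h).2 Y.1 hY, rfl⟩
  · intro h X hX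
    exact h ⟨X, hX.smoothProjective.ft⟩ (AddSubgroup.subset_closure
      ⟨⟨X, hX.smoothProjective.ft⟩, Or.inr (Pieces.dim X hX.smoothProjective.ft hX.dim), rfl⟩)

end Pool.Agent.U692.TP
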