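import Pool.Agent.U692.TP.Defs

/-!
# Meromorphic continuation of the `L`-functions of arbitrary schemes over `ℚ`: definitions

For a separated scheme `X` of finite type over `ℚ` and integers `i`, `w` let `gr^W_w H^i_c(X)` be the graded
piece of weight `w` of the `ℓ_p`-adic cohomology with compact support of `X` over the algebraic closure, for a
choice of primes `ℓ_p ≠ p`. For a smooth projective `X` it is `H^w(X)` for `i = w` and `0` otherwise.
-/

set_option autoImplicit false

open CategoryTheory AlgebraicGeometry Pool.Agent.Y116.UV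

namespace Pool.Agent.U692.TP

/-- Euler factors for the separated schemes of finite type over `ℚ`. -/
structure FactorData where
  /-- `factor w X p T` is the product over `i` of `det (1 - Frob_p T | (gr^W_w H^i_c(X))^{I_p})^(∓ 1)` (the
  exponent is `- 1` for even `i` and `1` for odd `i`) -/
  factor : ℤ → Sch ℚ → Nat.Primes → ℂ → ℂ

/-- the Euler factor at `s` -/
noncomputable def FactorData.at (D : FactorData) (w : ℤ) (X : Sch ℚ) (s : ℂ) (p : Nat.Primes) : ℂ :=
  D.factor w X p ((p : ℂ) ^ (-s))

/-- The `L`-function of weight `w`; for smooth projective `X` the `L`-function of `H^w(X)`, with the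
exponent `(-1)^w`. -/
noncomputable def FactorData.L (D : FactorData) (w : ℤ) (X : Sch ℚ) (s : ℂ) : ℂ :=
  ∏' p : Nat.Primes, D.at w X s p

/-- The function `f` is equal in some right half-plane to a function which is meromorphic on `ℂ`. -/
def Continues (f : ℂ → ℂ) : Prop :=
  ∃ F : ℂ → ℂ, MeromorphicOn F Set.univ ∧ ∃ σ : ℝ, ∀ s : ℂ, σ < s.re → F s = f s

/-- For all `w` the `L`-function of weight `w` has a meromorphic continuation. For a smooth projective `X`
this is the meromorphic continuation of the `L`-functions `L^i(M, s)` of the Chow motives `M = (X, 1, r)`. -/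
def FactorData.Mero (D : FactorData) (X : Sch ℚ) : Prop := ∀ w : ℤ, Continues (D.L w X)

/-- The known properties of the Euler factors which are used: isomorphic schemes have equal factors;
multiplicativity for a closed subscheme `Z` of `X` with the open complement `U`; the product with the
torus `𝔾_m`; convergence in some half-plane, with values `≠ 0`; nothing in negative weights. (In a suitable
right half-plane no Euler factor has a pole.) -/
structure IsKnownFactors (D : FactorData) : Prop where
  iso : ∀ (w : ℤ) {X Y : Sch ℚ}, FT True X → Nonempty (X ≅ Y) → D.factor w X = D.factor w Y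
  /-- the exact sequence of the cohomology with compact support; it splits on the graded pieces -/
  cut : ∀ (w : ℤ) {Z X U : Sch ℚ} (i : Z ⟶ X) (j : U ⟶ X), FT True X → IsTriple i j →
    ∃ σ : ℝ, ∀ s : ℂ, σ < s.re → ∀ p, D.at w X s p = D.at w Z s p * D.at w U s p
  /-- `[X × 𝔾_m] = [X] (𝕃 - 1)` -/
  torus : ∀ (w : ℤ) (A : Type) [CommRing A] [Algebra ℚ A] [Algebra.FiniteType ℚ A],
    ∃ σ : ℝ, ∀ s : ℂ, σ < s.re → ∀ p, D.at w (aff ℚ (LaurentPolynomial A)) s p *
      D.at w (aff ℚ A) s p = D.at (w - 2) (aff ℚ A) (s - 1) p
  converges : ∀ (w : ℤ) (X : Sch ℚ), FT True X →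
    ∃ σ : ℝ, ∀ s : ℂ, σ < s.re → Multipliable (D.at w X s) ∧ D.L w X s ≠ 0
  negative : ∀ (w : ℤ) (X : Sch ℚ), FT True X → w < 0 → ∀ p T, D.factor w X p T = 1

end Pool.Agent.U692.TP
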